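import Mathlib
import Pool.Agent.Q146.OddSquareIneq

/-!
# The largest square in an odd-dimensional unit cube

`f(2, 2n+1) = √((8n+1)/8)` for every `n ≥ 1`.

Proof of the upper bound. A square of edge `s` in the cube `[0,1]^N` has edge vectors `u, v` with
`|u| = |v| = s`, `u ⬝ v = 0` and `|u_j| + |v_j| ≤ 1` for every coordinate `j`. Put
`w_j = (u_j + i v_j)^2`; then `∑ w_j = 0`, `∑ |w_j| = 2 s^2`, and `w_j` lies in the region
`|w| + |Im w| ≤ 1`, in which `|w| ≤ (1 + (Re w)^2)/2`. For odd `N` one sign class of the real parts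
is larger than the other; this costs at least `3/4` in the sum of the `|w_j|`.
-/

set_option autoImplicit false

namespace Pool.Agent.Results.MP_befaea_co.LargestSquareOdd

open Finset

/-- `Inscribed m n s`: some `m`-dimensional cube of edge `s > 0`, a congruent copy of `[0,s]^m` (the
image of `[0,s]^m` under an isometric embedding of `ℝ^m` into `ℝ^n`), is contained in the unit cube
`[0,1]^n`. -/
def Inscribed (m n : ℕ) (s : ℝ) : Prop :=
  0 < s ∧ ∃ φ : EuclideanSpace ℝ (Fin m) → EuclideanSpace ℝ (Fin n), Isometry φ ∧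
    ∀ x : EuclideanSpace ℝ (Fin m), (∀ i, 0 ≤ x i ∧ x i ≤ s) → ∀ j, 0 ≤ φ x j ∧ φ x j ≤ 1

/-- `f(m,n)`: the largest edge of an `m`-dimensional cube inscribed in `[0,1]^n`. -/
noncomputable def f (m n : ℕ) : ℝ := sSup {s : ℝ | Inscribed m n s}

/-! ### Upper bound -/

lemma upper {n : ℕ} {s : ℝ} (h : Inscribed 2 (2 * n + 1) s) : s ^ 2 ≤ n + 1 / 8 := by
  obtain ⟨hs, φ, hφ, hcube⟩ := h
  set A : EuclideanSpace ℝ (Fin 2) →ᵃⁱ[ℝ] EuclideanSpace ℝ (Fin (2 * n + 1)) :=
    hφ.affineIsometryOfStrictConvexSpace with hA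
  have hAφ : ∀ x, A x = φ x := fun x => by
    rw [hA]; rfl
  set e : EuclideanSpace ℝ (Fin 2) := EuclideanSpace.single 0 s with he
  set e' : EuclideanSpace ℝ (Fin 2) := EuclideanSpace.single 1 s with he'
  set u := A.linearIsometry e with hu
  set v := A.linearIsometry e' with hv
  have hlin : ∀ x, φ x = A.linearIsometry x + φ 0 := by
    intro x
    have := A.map_vadd 0 x
    simp only [vadd_eq_add, add_zero] at this
    rw [← hAφ x, this, hAφ]
  have h00 := hcube 0 (fun i => by simp [hs.le])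
  have h10 := hcube e (fun i => by
    rw [he]
    fin_cases i <;> simp [hs.le])
  have h01 := hcube e' (fun i => by
    rw [he']
    fin_cases i <;> simp [hs.le])
  have h11 := hcube (e + e') (fun i => by
    rw [he, he']
    fin_cases i <;> simp [hs.le])
  rw [hlin e] at h10
  rw [hlin e'] at h01
  rw [hlin (e + e'), map_add] at h11
  have hb : ∀ j, |u j| + |v j| ≤ 1 := by
    intro j
    have a0 := h00 j
    have a1 := h10 j
    have a2 := h01 j
    have a3 := h11 j
    simp only [PiLp.add_apply] at a1 a2 a3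
    change 0 ≤ u j + φ 0 j ∧ u j + φ 0 j ≤ 1 at a1
    change 0 ≤ v j + φ 0 j ∧ v j + φ 0 j ≤ 1 at a2
    change 0 ≤ u j + v j + φ 0 j ∧ u j + v j + φ 0 j ≤ 1 at a3
    rcases abs_cases (u j) with ⟨h1, _⟩ | ⟨h1, _⟩ <;>
    rcases abs_cases (v j) with ⟨h2, _⟩ | ⟨h2, _⟩ <;>
    rw [h1, h2] <;> linarith [a0.1, a0.2, a1.1, a1.2, a2.1, a2.2, a3.1, a3.2]
  have hnu : ∑ j, u j ^ 2 = s ^ 2 := by
    have h1 : ‖u‖ = s := by
      rw [hu, LinearIsometry.norm_map, he]
      simp [abs_of_pos hs]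
    rw [← h1, EuclideanSpace.norm_sq_eq]
    simp
  have hnv : ∑ j, v j ^ 2 = s ^ 2 := by
    have h1 : ‖v‖ = s := by
      rw [hv, LinearIsometry.norm_map, he']
      simp [abs_of_pos hs]
    rw [← h1, EuclideanSpace.norm_sq_eq]
    simp
  have huv : ∑ j, u j * v j = 0 := by
    have h1 : (inner ℝ v u : ℝ) = 0 := by
      rw [hu, hv, LinearIsometry.inner_map_map, he, he', EuclideanSpace.inner_single_left]
      simp
    rw [PiLp.inner_apply] at h1
    simpa using h1
  have hodd : Odd (Fintype.card (Fin (2 * n + 1))) := by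
    rw [Fintype.card_fin]; exact ⟨n, rfl⟩
  have := Q146.OddSquare.main hodd (fun j => u j) (fun j => v j) hb (by rw [hnu, hnv]) huv
  rw [sum_add_distrib, hnu, hnv, Fintype.card_fin] at this
  push_cast at this
  linarith

/-! ### The example -/

/-- first edge vector (times the normalisation) -/
noncomputable def uu (j : ℕ) : ℝ :=
  if j = 0 then 1 else if j = 1 then 1 / 4 else if j = 2 then 1 / 4 else if Odd j then 1 else 0

/-- second edge vector -/
noncomputable def vv (j : ℕ) : ℝ :=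
  if j = 0 then 0 else if j = 1 then 3 / 4 else if j = 2 then -(3 / 4) else if Odd j then 0 else 1

/-- base point -/
noncomputable def pp (j : ℕ) : ℝ := if j = 2 then 3 / 4 else 0

lemma uu_odd (n : ℕ) : uu (2 * (n + 1) + 1) = 1 := by
  have h : Odd (2 * (n + 1) + 1) := ⟨n + 1, rfl⟩
  unfold uu
  rw [if_neg (by omega), if_neg (by omega), if_neg (by omega), if_pos h]

lemma uu_even (n : ℕ) : uu (2 * (n + 1) + 2) = 0 := by
  have h : ¬ Odd (2 * (n + 1) + 2) := by
    rw [Nat.not_odd_iff_even]; exact ⟨n + 2, by ring⟩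
  unfold uu
  rw [if_neg (by omega), if_neg (by omega), if_neg (by omega), if_neg h]

lemma vv_odd (n : ℕ) : vv (2 * (n + 1) + 1) = 0 := by
  have h : Odd (2 * (n + 1) + 1) := ⟨n + 1, rfl⟩
  unfold vv
  rw [if_neg (by omega), if_neg (by omega), if_neg (by omega), if_pos h]

lemma vv_even (n : ℕ) : vv (2 * (n + 1) + 2) = 1 := by
  have h : ¬ Odd (2 * (n + 1) + 2) := by
    rw [Nat.not_odd_iff_even]; exact ⟨n + 2, by ring⟩
  unfold vv
  rw [if_neg (by omega), if_neg (by omega), if_neg (by omega), if_neg h]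

lemma sum_uu (n : ℕ) : ∑ j ∈ range (2 * (n + 1) + 1), uu j ^ 2 = (n + 1 : ℝ) + 1 / 8 := by
  induction n with
  | zero => simp [sum_range_succ, uu]; norm_num
  | succ n ih =>
    rw [show 2 * (n + 1 + 1) + 1 = (2 * (n + 1) + 1) + 1 + 1 by ring, sum_range_succ,
      sum_range_succ, ih, uu_odd, uu_even]
    push_cast; ring

lemma sum_vv (n : ℕ) : ∑ j ∈ range (2 * (n + 1) + 1), vv j ^ 2 = (n + 1 : ℝ) + 1 / 8 := by
  induction n with
  | zero => simp [sum_range_succ, vv]; norm_num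
  | succ n ih =>
    rw [show 2 * (n + 1 + 1) + 1 = (2 * (n + 1) + 1) + 1 + 1 by ring, sum_range_succ,
      sum_range_succ, ih, vv_odd, vv_even]
    push_cast; ring

lemma sum_uv (n : ℕ) : ∑ j ∈ range (2 * (n + 1) + 1), uu j * vv j = 0 := by
  induction n with
  | zero => simp [sum_range_succ, uu, vv]
  | succ n ih =>
    rw [show 2 * (n + 1 + 1) + 1 = (2 * (n + 1) + 1) + 1 + 1 by ring, sum_range_succ,
      sum_range_succ, ih, vv_odd, uu_even]
    ring

lemma corner (j : ℕ) (a b : ℝ) (ha : 0 ≤ a ∧ a ≤ 1) (hb : 0 ≤ b ∧ b ≤ 1) :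
    0 ≤ pp j + a * uu j + b * vv j ∧ pp j + a * uu j + b * vv j ≤ 1 := by
  unfold pp uu vv
  obtain ⟨ha0, ha1⟩ := ha
  obtain ⟨hb0, hb1⟩ := hb
  by_cases h0 : j = 0
  · subst h0
    norm_num
    exact ⟨ha0, ha1⟩
  by_cases h1 : j = 1
  · subst h1
    norm_num
    constructor <;> linarith
  by_cases h2 : j = 2
  · subst h2
    norm_num
    constructor <;> linarith
  rw [if_neg h0, if_neg h1, if_neg h2, if_neg h0, if_neg h1, if_neg h2, if_neg h2]
  by_cases h3 : Odd j
  · rw [if_pos h3, if_pos h3]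
    constructor <;> linarith
  · rw [if_neg h3, if_neg h3]
    constructor <;> linarith

lemma lower (n : ℕ) : Inscribed 2 (2 * (n + 1) + 1) (Real.sqrt ((8 * ((n + 1 : ℕ) : ℝ) + 1) / 8)) := by
  set s := Real.sqrt ((8 * ((n + 1 : ℕ) : ℝ) + 1) / 8) with hs
  have hspos : 0 < s := Real.sqrt_pos.mpr (by positivity)
  have hs2 : s ^ 2 = (n + 1 : ℝ) + 1 / 8 := by
    rw [hs, Real.sq_sqrt (by positivity)]; push_cast; ring
  refine ⟨hspos, fun x => WithLp.toLp 2 fun j =>
    pp j + (x 0 / s) * uu j + (x 1 / s) * vv j, ?_, ?_⟩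
  · apply Isometry.of_dist_eq
    intro x y
    rw [EuclideanSpace.dist_eq, EuclideanSpace.dist_eq]
    congr 1
    simp only [Real.dist_eq, sq_abs, Fin.sum_univ_two]
    have h1 : ∀ j : Fin (2 * (n + 1) + 1),
        (pp j + (x 0 / s) * uu j + (x 1 / s) * vv j -
          (pp j + (y 0 / s) * uu j + (y 1 / s) * vv j)) ^ 2 =
        ((x 0 - y 0) / s) ^ 2 * uu j ^ 2 + ((x 1 - y 1) / s) ^ 2 * vv j ^ 2 +
          2 * ((x 0 - y 0) / s) * ((x 1 - y 1) / s) * (uu j * vv j) := by
      intro j; ring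
    rw [sum_congr rfl fun j _ => h1 j, sum_add_distrib, sum_add_distrib, ← mul_sum, ← mul_sum,
      ← mul_sum, Fin.sum_univ_eq_sum_range (fun j => uu j ^ 2),
      Fin.sum_univ_eq_sum_range (fun j => vv j ^ 2),
      Fin.sum_univ_eq_sum_range (fun j => uu j * vv j), sum_uu, sum_vv, sum_uv, ← hs2]
    field_simp
    ring
  · intro x hx j
    exact corner j (x 0 / s) (x 1 / s)
      ⟨div_nonneg (hx 0).1 hspos.le, (div_le_one hspos).2 (hx 0).2⟩
      ⟨div_nonneg (hx 1).1 hspos.le, (div_le_one hspos).2 (hx 1).2⟩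

/-- **Main theorem.** For every `n ≥ 1` the largest edge of a square contained in the unit cube
`[0,1]^(2n+1)` is `√((8n+1)/8)`; the maximum is attained. -/
theorem result (n : ℕ) (hn : 1 ≤ n) :
    IsGreatest {s : ℝ | Inscribed 2 (2 * n + 1) s} (Real.sqrt ((8 * (n : ℝ) + 1) / 8)) ∧
      f 2 (2 * n + 1) = Real.sqrt ((8 * (n : ℝ) + 1) / 8) := by
  have h : IsGreatest {s : ℝ | Inscribed 2 (2 * n + 1) s} (Real.sqrt ((8 * (n : ℝ) + 1) / 8)) := by
    constructor
    · obtain ⟨k, rfl⟩ : ∃ k, n = k + 1 := ⟨n - 1, by omega⟩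
      exact lower k
    · intro s hs
      apply Real.le_sqrt_of_sq_le
      have := upper hs
      linarith
  exact ⟨h, h.csSup_eq⟩

end Pool.Agent.Results.MP_befaea_co.LargestSquareOdd
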